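import Pool.Agent.H743.JL.StmY
import Pool.Agent.H743.JL.LV

/-!
# JX-LV2: the hypothesis of the abstract machine (assembly), two kinds
-/

set_option autoImplicit false
set_option linter.all false

open scoped Classical

namespace Pool.Agent.H685.JX

open Finset Module
open Pool.Agent.H743.JL
open Pool.Agent.H390.JL (sqf_prod al_uu dvd_M dvd_S sqf_S UF_sub lg copr card_tr card_E2 nu_nr
  filter_dec card_Ix even_E2 arith)
open Pool.Agent.N916.MO
open Pool.Agent.N916.GB (pt ps sx Po eta)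
open Pool.Agent.Y703.CQ (c2 nr)
open Pool.Agent.N973.ND (uu)
open Pool.Agent.N916.AM (Nd Rich LAV LAH Bs nr_mod uu_mod)
open Pool.Agent.H743.X17 (Sys Rt RS LL lS al nu pd lam)

section
variable {M : ℕ} {S₀ : Finset ℕ} {t : ℤ}
variable {ι : Type} [Fintype ι] [LinearOrder ι] {p q : ι → ℕ}

/-- the split kind -/
theorem equivS (h7 : S_CP) (h9 : S_TW) (h13 : S_NB2) (h14 : S_NS2) (h15 : S_KS2)
    (k0 : ι) (hM0 : 0 < M) (h8 : 8 ∣ M) (h17 : 17 ∣ M) (ht : Squarefree t)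
    (htM : t ∣ (M : ℤ)) (hS : ∀ v ∈ S₀, Po v)
    (hp : ∀ i, Po (p i) ∧ p i ∉ S₀ ∧ (p i).Coprime M) (hpi : Function.Injective p)
    (hq : ∀ i, Po (q i) ∧ q i ∉ S₀ ∧ q i % M = p i % M ∧ ∀ v ∈ S₀, nr (q i) v = nr (p i) v)
    (hqi : Function.Injective q) (hR : tw t (∏ v ∈ S₀, (v : ℤ)) * ∏ k, (p k : ℤ) < 0) :
    H4 (tw t (∏ v ∈ S₀, (v : ℤ)) * ∏ k, (q k : ℤ)) ↔
      Nde (Bhp k0 (LA (tw t (∏ v ∈ S₀, (v : ℤ)) * ∏ k, (p k : ℤ))
          (piU (tw t (∏ v ∈ S₀, (v : ℤ)) * ∏ k, (p k : ℤ)) (tw t (∏ v ∈ S₀, (v : ℤ))) p)))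
        (Sg k0 fun e : ps ι => nr (q e.1.1) (q e.1.2) + nr (p e.1.1) (p e.1.2)) := by
  have hqc : ∀ i, (q i).Coprime M := by
    intro i
    have h := (hp i).2.2
    rw [Nat.coprime_comm] at h ⊢
    unfold Nat.Coprime at h ⊢
    rw [Nat.gcd_rec] at h ⊢
    rw [(hq i).2.2.1]
    exact h
  have hq' : ∀ i, Po (q i) ∧ q i ∉ S₀ ∧ (q i).Coprime M := fun i =>
    ⟨(hq i).1, (hq i).2.1, hqc i⟩
  have hLp := lg h9 ht htM h17 hS hp hpi
  have hLq := lg h9 ht htM h17 hS hq' hqi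
  have hs0 : Squarefree (tw t (∏ v ∈ S₀, (v : ℤ))) := ((h9 t ht).1 _ (sqf_S hS)).1
  have hlab : ∀ k, q k % 8 = p k % 8 ∧ nr (q k) 17 = nr (p k) 17 ∧
      ∀ u : ℕ, u.Prime → u ≠ 2 → (u : ℤ) ∣ tw t (∏ v ∈ S₀, (v : ℤ)) →
        nr (q k) u = nr (p k) u := by
    intro k
    refine ⟨?_, ?_, ?_⟩
    · rw [← Nat.mod_mod_of_dvd (q k) h8, (hq k).2.2.1, Nat.mod_mod_of_dvd (p k) h8]
    · exact nr_mod h8 (hq k).1 (hp k).1 (hqc k) (hp k).2.2 (by norm_num) h17 (hq k).2.2.1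
    · intro u hu _ hd
      rcases ((h9 t ht).1 _ (sqf_S hS)).2 u hu hd with h | h
      · exact nr_mod h8 (hq k).1 (hp k).1 (hqc k) (hp k).2.2 hu (dvd_M htM h) (hq k).2.2.1
      · exact (hq k).2.2.2 u (dvd_S hu hS h)
  obtain ⟨c1, c2', c3, c4, c5, c6, c7, c8⟩ := h7 ι (tw t (∏ v ∈ S₀, (v : ℤ))) p q hs0 hLp hLq hlab
  obtain ⟨d1, d2, d3, d4⟩ := h15 _ _ _ c1 c3 c2'
  have hpP : 0 < ∏ k, (p k : ℤ) := Finset.prod_pos fun k _ => by
    exact_mod_cast (hp k).1.1.pos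
  have hqP : 0 < ∏ k, (q k : ℤ) := Finset.prod_pos fun k _ => by
    exact_mod_cast (hq k).1.1.pos
  have hneg : tw t (∏ v ∈ S₀, (v : ℤ)) * ∏ k, (q k : ℤ) < 0 :=
    mul_neg_of_neg_of_pos (neg_of_mul_neg_left hR hpP.le) hqP
  have d4' := d4 hneg
  rw [c6] at d4'
  rw [c8] at d1 d2 d4'
  rw [d1, h13 _ _ _ (Sum.inr k0) d2 d4' ?_]
  · exact (h14 _ _ k0 _ _).symm
  · show wt _ (p k0) = 1
    unfold wt
    rw [if_neg]
    intro h
    exact (hLp.1 k0).2.1 h.1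

/-- both kinds -/
theorem equiv2 (h1 : S_NB) (h2 : S_NS) (h3 : S_DP) (h5 : S_KS) (h6 : S_DT) (h7 : S_CP)
    (h9 : S_TW) (h13 : S_NB2) (h14 : S_NS2) (h15 : S_KS2) (sp : Prop)
    (k0 : ι) (hM0 : 0 < M) (h8 : 8 ∣ M) (h17 : 17 ∣ M) (ht : Squarefree t)
    (htM : t ∣ (M : ℤ)) (hS : ∀ v ∈ S₀, Po v)
    (hp : ∀ i, Po (p i) ∧ p i ∉ S₀ ∧ (p i).Coprime M) (hpi : Function.Injective p)
    (hq : ∀ i, Po (q i) ∧ q i ∉ S₀ ∧ q i % M = p i % M ∧ ∀ v ∈ S₀, nr (q i) v = nr (p i) v)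
    (hqi : Function.Injective q) (hR : Ro sp (tw t (∏ v ∈ S₀, (v : ℤ)) * ∏ k, (p k : ℤ))) :
    Kd sp (tw t (∏ v ∈ S₀, (v : ℤ)) * ∏ k, (q k : ℤ)) ↔
      Nde (BK sp (tw t (∏ v ∈ S₀, (v : ℤ)) * ∏ k, (p k : ℤ)) (tw t (∏ v ∈ S₀, (v : ℤ))) p k0)
        (Sg k0 fun e : ps ι => nr (q e.1.1) (q e.1.2) + nr (p e.1.1) (p e.1.2)) := by
  by_cases hsp : sp
  · have e1 : BK sp (tw t (∏ v ∈ S₀, (v : ℤ)) * ∏ k, (p k : ℤ)) (tw t (∏ v ∈ S₀, (v : ℤ))) p k0 =
        Bhp k0 (LA (tw t (∏ v ∈ S₀, (v : ℤ)) * ∏ k, (p k : ℤ))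
          (piU (tw t (∏ v ∈ S₀, (v : ℤ)) * ∏ k, (p k : ℤ)) (tw t (∏ v ∈ S₀, (v : ℤ))) p)) := by
      unfold BK Bk
      rw [if_pos hsp]
    rw [e1]
    have e2 : Kd sp (tw t (∏ v ∈ S₀, (v : ℤ)) * ∏ k, (q k : ℤ)) ↔
        H4 (tw t (∏ v ∈ S₀, (v : ℤ)) * ∏ k, (q k : ℤ)) :=
      ⟨fun h => h.1 hsp, fun h => ⟨fun _ => h, fun h' => absurd hsp h'⟩⟩
    rw [e2]
    exact equivS h7 h9 h13 h14 h15 k0 hM0 h8 h17 ht htM hS hp hpi hq hqi (hR.1 hsp)
  · have e1 : BK sp (tw t (∏ v ∈ S₀, (v : ℤ)) * ∏ k, (p k : ℤ)) (tw t (∏ v ∈ S₀, (v : ℤ))) p k0 =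
        BA (tw t (∏ v ∈ S₀, (v : ℤ)) * ∏ k, (p k : ℤ)) (tw t (∏ v ∈ S₀, (v : ℤ))) p k0 := by
      unfold BK Bk BA
      rw [if_neg hsp]
    rw [e1]
    have e2 : Kd sp (tw t (∏ v ∈ S₀, (v : ℤ)) * ∏ k, (q k : ℤ)) ↔
        Sys (tw t (∏ v ∈ S₀, (v : ℤ)) * ∏ k, (q k : ℤ)) :=
      ⟨fun h => h.2 hsp, fun h => ⟨fun h' => absurd h' hsp, fun _ => h⟩⟩
    rw [e2]
    exact Pool.Agent.H390.JL.equiv h1 h2 h3 h5 h6 h7 h9 k0 hM0 h8 h17 ht htM hS hp hpi hq hqi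
      (hR.2 hsp)

end

/-- the types are periodic -/
theorem ty_per (h10 : S_SE) {n : ℕ} {t : Fin n → ℤ} {M : ℕ} (hM0 : 0 < M) (h8M : 8 ∣ M)
    (h17 : 17 ∣ M) (ht : ∀ i, Squarefree (t i) ∧ t i ∣ M) :
    ∀ p q : ℕ, p.Prime → q.Prime → p.Coprime M → q.Coprime M → p % M = q % M →
      ty t p = ty t q := by
  intro p q hp hq hpM hqM h
  have h0 := (h10 0 (fun i => i.elim0) M hM0 h8M h17 (fun i => i.elim0) (fun i => i.elim0)).2
    p q hp hq hpM hqM h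
  have e1 : uu p = uu q := congrArg Prod.fst h0
  have e2 : nr p 17 = nr q 17 := congrArg (fun z => z.2.1) h0
  have e3 : (fun i => chi (t i) p) = fun i => chi (t i) q := by
    funext i
    have h1 := (h10 1 (fun _ => t i) M hM0 h8M h17 (fun _ => ht i)
      (fun a b hab => absurd (Subsingleton.elim a b) hab)).2 p q hp hq hpM hqM h
    exact congrFun (congrArg (fun z => z.2.2) h1) 0
  show (uu p, nr p 17, fun i => chi (t i) p) = (uu q, nr q 17, fun i => chi (t i) q)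
  rw [e1, e2, e3]

theorem t_LV2 (h : S_JT2) (h1 : S_NB) (h2 : S_NS) (h3 : S_DP) (h4 : S_SH2) (h5 : S_KS)
    (h6 : S_DT) (h7 : S_CP) (h8 : S_TA) (h9 : S_TW) (h10 : S_SE) (h11 : S_K0) (h12 : S_NI2)
    (h13 : S_NB2) (h14 : S_NS2) (h15 : S_KS2) (h16 : S_SE2) : S_LV2 := by
  intro n sp t M K hM0 h8M h17 ht htn hR ε hε
  obtain ⟨V₀, hJ⟩ := h n 2 ε hε
  set A := M.primeFactors.card with hA
  refine ⟨(2 * n + 2) * (2 * (A + 1)) + V₀ + 1, ?_⟩
  intro ι _ _ S₀ p hS hp hpi hK hNd hRich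
  have hM8 : 8 ≤ M := Nat.le_of_dvd hM0 h8M
  -- counting
  have hcnt : ∀ a < M, a.Coprime M →
      ((2 * n + 2) * (2 * (A + 1)) + V₀ + 1) * (S₀.card + 1) ≤
        (univ.filter fun k : ι => p k % M = a).card := by
    intro a ha hac
    refine (hRich a ha hac).trans ?_
    have e : (univ.image p).filter (fun x => x % M = a) =
        (univ.filter fun k : ι => p k % M = a).image p := by
      ext x
      simp only [mem_filter, mem_image, mem_univ, true_and]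
      constructor
      · rintro ⟨⟨k, rfl⟩, h⟩
        exact ⟨k, h, rfl⟩
      · rintro ⟨k, h, rfl⟩
        exact ⟨⟨k, rfl⟩, h⟩
    rw [e]
    exact card_image_le
  have hBs : (Bs M S₀).card ≤ S₀.card + A := card_union_le _ _
  have hι : (Bs M S₀).card + 1 < Fintype.card ι := by
    have h0 := hcnt 1 (by omega) (Nat.coprime_one_left M)
    have h00 : (univ.filter fun k : ι => p k % M = 1).card ≤ Fintype.card ι := card_le_univ _
    have h01 := arith n A V₀ S₀.card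
    have h02 : 2 * (2 * (S₀.card + A + 1)) ≤
      2 * n * (2 * (S₀.card + A + 1)) + 2 * (2 * (S₀.card + A + 1)) := Nat.le_add_left _ _
    omega
  obtain ⟨k0, hk0⟩ := h11 M S₀ ι p hpi hNd hι
  -- the integers
  set P0 : ℤ := ∏ v ∈ S₀, (v : ℤ) with hP0
  set t0 : Fin n → ℤ := fun i => tw (t i) P0 with ht0
  set m : Fin n → ℤ := fun i => t0 i * ∏ k, (p k : ℤ) with hm
  set x0 : ℕ := (∏ v ∈ S₀, v) * ∏ i, p i with hx0
  have hx0c : (x0 : ℤ) = P0 * ∏ k, (p k : ℤ) := by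
    rw [hx0, hP0]
    push_cast
    rfl
  have hcopP : ∀ i, IsCoprime (t i) (∏ k, (p k : ℤ)) := fun i =>
    copr (fun k => (hp k).2.2) (ht i).2
  have hmx : ∀ i, m i = tw (t i) (x0 : ℤ) := by
    intro i
    rw [hx0c, (h9 (t i) (ht i).1).2 P0 _ (sqf_S hS) (hcopP i)]
  have hdisj : Disjoint S₀ (univ.image p) := by
    rw [Finset.disjoint_left]
    intro v hv hv2
    obtain ⟨k, -, rfl⟩ := mem_image.1 hv2
    exact (hp k).2.1 hv
  have hx0s : Squarefree x0 := by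
    have e : x0 = ∏ v ∈ S₀ ∪ univ.image p, v := by
      rw [prod_union hdisj, prod_image fun a _ b _ h => hpi h]
    have h0 := sqf_prod (S₀ ∪ univ.image p) (fun v => v) (by
      intro v hv
      rcases mem_union.1 hv with hv | hv
      · exact (hS v hv).1
      · obtain ⟨k, -, rfl⟩ := mem_image.1 hv
        exact (hp k).1.1) fun a _ b _ h => h
    rw [← Int.squarefree_natCast, e]
    push_cast
    exact h0
  have hx0o : Odd x0 := by
    rw [hx0, Nat.odd_mul]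
    constructor
    · exact Finset.prod_induction _ Odd (fun a b ha hb => ha.mul hb) odd_one
        fun v hv => (hS v hv).1.odd_of_ne_two (hS v hv).2
    · exact Finset.prod_induction _ Odd (fun a b ha hb => ha.mul hb) odd_one
        fun k _ => (hp k).1.1.odd_of_ne_two (hp k).1.2
  have hRo : ∀ i, Ro (sp i) (m i) := by
    intro i
    rw [hmx]
    exact hR x0 hx0s hx0o hK i
  have hLp : ∀ i, Lg (t0 i) p := fun i => lg h9 (ht i).1 (ht i).2 h17 hS hp hpi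
  -- the form
  have hdata : ∀ i k, rA (piU (m i) (t0 i) p) (Sum.inr k) = 0 ∧
      nA (piU (m i) (t0 i) p) (Sum.inr k) = nu (p k) ∧
      aA (m i) (piU (m i) (t0 i) p) (Sum.inr k) = uu (p k) := fun i k =>
    ⟨if_neg ((hLp i).1 k).2.2.1, rfl, al_uu (hp k).1.1 (hp k).1.2⟩
  have hoff : ∀ i k l, k ≠ l → LA (m i) (piU (m i) (t0 i) p) (Sum.inr k) (Sum.inr l) =
      (if k = l then lam (p k) (x0 : ℤ) + uu (p k) else LL 1 (p k) (p l)) := by
    intro i k l hkl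
    rw [if_neg hkl]
    exact h8.2.1 _ _ _ _ (hp l).1.2 fun e => hkl (hpi e)
  have hdiag : ∀ i k, LA (m i) (piU (m i) (t0 i) p) (Sum.inr k) (Sum.inr k) =
      (if k = k then lam (p k) (x0 : ℤ) + uu (p k) else LL 1 (p k) (p k)) + chi (t i) (p k) := by
    intro i k
    rw [if_pos rfl]
    show LL (m i) (p k) (p k) = _
    rw [hmx]
    refine h8.1 _ _ _ (ht i).1 (Int.squarefree_natCast.2 hx0s) ?_ (hp k).1.1 (hp k).1.2 ?_ ?_
    · exact_mod_cast hx0s.ne_zero.bot_lt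
    · rw [hx0c]
      exact (Finset.dvd_prod_of_mem (fun k => (p k : ℤ)) (mem_univ k)).mul_left _
    · intro h
      have := Nat.Coprime.eq_one_of_dvd (hp k).2.2 (dvd_M (ht i).2 h)
      exact (hp k).1.1.one_lt.ne' this
  have hrec : ∀ k l, k ≠ l →
      (if k = l then lam (p k) (x0 : ℤ) + uu (p k) else LL 1 (p k) (p l)) +
      (if l = k then lam (p l) (x0 : ℤ) + uu (p l) else LL 1 (p l) (p k)) =
        uu (p k) * uu (p l) := by
    intro k l hkl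
    rw [if_neg hkl, if_neg (Ne.symm hkl)]
    exact h8.2.2 _ _ _ (hp k).1.1 (hp l).1.1 (hp k).1.2 (hp l).1.2 fun e => hkl (hpi e)
  obtain ⟨F, G, Φ, Ψ, Θ, hShp⟩ := h4 n sp (fun i => UF (m i) (t0 i)) ι k0
    (fun i => rA (piU (m i) (t0 i) p)) (fun i => nA (piU (m i) (t0 i) p))
    (fun i => aA (m i) (piU (m i) (t0 i) p)) (fun i => LA (m i) (piU (m i) (t0 i) p))
    (fun k => nu (p k)) (fun k => uu (p k))
    (fun k l => if k = l then lam (p k) (x0 : ℤ) + uu (p k) else LL 1 (p k) (p l))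
    (fun i k => chi (t i) (p k)) hdata hoff hdiag hrec
    (fun i => h12 (sp i) M S₀ (t i) ι p k0 (t0 i) (m i) hM0 h8M h17 hS (ht i).1 (ht i).2 hp hpi
      rfl rfl (hRo i) hk0)
  have hSep := h16 n sp t M hM0 h8M h17 ht htn
  have hTy := ty_per h10 hM0 h8M h17 ht
  have hcU : ∀ i, Fintype.card (UF (m i) (t0 i)) ≤ S₀.card + A := by
    intro i
    rw [Fintype.card_coe]
    exact (card_le_card (UF_sub h9 hM0 h8M (ht i).1 (ht i).2 hS (m i))).trans hBs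
  have hmain := hJ (fun i => E2 (Option (UF (m i) (t0 i)))) (Ix k0)
    (fun i => BK (sp i) (m i) (t0 i) p k0) sp (fun i => AXc (UF (m i) (t0 i)))
    (fun i => AYc (UF (m i) (t0 i))) _ _ _ _ (ZMod 2) (ZMod 2) F G Φ Ψ Θ hShp
    (fun i => even_E2 _) (by rw [ZMod.card]; norm_num) (by rw [ZMod.card]; norm_num)
    (Gm t M) (2 * (S₀.card + A + 1)) hSep ?_ ?_
  · refine ⟨fun σ => ∀ i, Nde (BK (sp i) (m i) (t0 i) p k0)
      (Sg k0 fun e => σ e + nr (p e.1.1) (p e.1.2)), ?_, ?_⟩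
    · intro q hqi hq
      have hdq : Disjoint S₀ (univ.image q) := by
        rw [Finset.disjoint_left]
        intro v hv hv2
        obtain ⟨k, -, rfl⟩ := mem_image.1 hv2
        exact (hq k).2.1 hv
      have hprod : ∏ v ∈ S₀ ∪ univ.image q, (v : ℤ) = P0 * ∏ k, (q k : ℤ) := by
        rw [prod_union hdq, prod_image fun a _ b _ h => hqi h]
      have hqc : ∀ i, (q i).Coprime M := by
        intro i
        have h := (hp i).2.2
        rw [Nat.coprime_comm] at h ⊢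
        unfold Nat.Coprime at h ⊢
        rw [Nat.gcd_rec] at h ⊢
        rw [(hq i).2.2.1]
        exact h
      refine forall_congr' fun i => ?_
      rw [hprod, (h9 (t i) (ht i).1).2 P0 _ (sqf_S hS) (copr hqc (ht i).2)]
      exact equiv2 h1 h2 h3 h5 h6 h7 h9 h13 h14 h15 (sp i) k0 hM0 h8M h17 (ht i).1 (ht i).2 hS hp
        hpi hq hqi (hRo i)
    · rw [card_tr (fun s => ∀ i, Nde (BK (sp i) (m i) (t0 i) p k0) s)
        (fun e : ps ι => nr (p e.1.1) (p e.1.2))]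
      refine le_of_eq_of_le ?_ hmain
      rw [filter_dec (fun s : Sy (Ix k0) => ∀ i, Nde (BK (sp i) (m i) (t0 i) p k0) s)
        (fun _ => Classical.propDecidable _) _]
  · intro i
    rw [card_E2]
    have h0 := hcU i
    have h1 : (2 : ℝ) ^ (2 * (Fintype.card (UF (m i) (t0 i)) + 1)) ≤
        2 ^ (2 * (S₀.card + A + 1)) := pow_le_pow_right₀ one_le_two (by omega)
    exact_mod_cast h1
  · intro κ hκ
    unfold Gm at hκ
    rw [mem_filter] at hκ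
    obtain ⟨-, p1, hp1, hp1M, rfl⟩ := hκ
    have hcop : (p1 % M).Coprime M := by
      unfold Nat.Coprime
      rw [← Nat.gcd_rec, Nat.gcd_comm]
      exact hp1M
    have h0 := hcnt (p1 % M) (Nat.mod_lt _ hM0) hcop
    have h01 := arith n A V₀ S₀.card
    have h02 : (univ.filter fun k : ι => p k % M = p1 % M).card ≤
        (univ.filter fun k : Ix k0 => (uu (p k), nu (p k), fun i => chi (t i) (p k)) = ty t p1).card
          + 1 := by
      refine card_Ix (k0 := k0) (fun k => p k % M = p1 % M)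
        (fun k : Ix k0 => (uu (p k), nu (p k), fun i => chi (t i) (p k)) = ty t p1) fun k hk => ?_
      rw [nu_nr (hp k).1.1 (hp k).1.2 ?_]
      · refine hTy _ _ (hp k).1.1 hp1 (hp k).2.2 hp1M hk
      · intro h
        have h0 := (hp k).2.2
        rw [h] at h0
        have := Nat.Coprime.eq_one_of_dvd h0 h17
        omega
    have h03 := (h01.trans h0).trans h02
    refine (Nat.le_of_add_le_add_right h03).trans (le_of_eq ?_)
    exact filter_dec _ _ _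

end Pool.Agent.H685.JX
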